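import Pool.Agent.TH21.MS.LadMain

/-!
Lower bounds near infinity for polynomials in nomes and jets of `j` at the points `i s g_i (t)`, for
scales `g_1 ≪ g_2 ≪ ⋯`.
-/

set_option autoImplicit false

open Set Filter Topology Asymptotics

namespace Pool.Agent.Y216.TW

open Pool.Agent.TH21.MS

/-- the real functions of the ladder -/
noncomputable def wg {p : ℕ} (g : ℕ → ℝ → ℝ) (s : ℕ → Fin p → ℝ) (n : ℕ)
    (q : Fin n × (Fin p × Fin 4)) (t : ℝ) : ℝ :=
  Gq q.2.2 (xp (s q.1 q.2.1 * g q.1 t)) / xp (s q.1 q.2.1 * g q.1 t)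

/-- the control functions of the ladder -/
noncomputable def Hg {p : ℕ} (h0 : ℝ → ℝ) (g : ℕ → ℝ → ℝ) (s : ℕ → Fin p → ℝ) (n : ℕ) (t : ℝ) : ℝ :=
  h0 t + ∑ i ∈ Finset.range n, ∑ k, s i k * g i t

theorem wg_step {κ : Type} (u : κ → ℝ → ℝ) {p : ℕ} (g : ℕ → ℝ → ℝ) (s : ℕ → Fin p → ℝ) (n : ℕ)
    (k : κ ⊕ (Fin (n + 1) × (Fin p × Fin 4))) : Sum.elim u (wg g s (n + 1)) k =
    (Sum.elim (fun (q : Fin p × Fin 4) t => Gq q.2 (xp (s n q.1 * g n t)) / xp (s n q.1 * g n t))
      (Sum.elim u (wg g s n))) (eqB κ (Fin p × Fin 4) n k) := by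
  rcases k with x | ⟨i, j⟩
  · rfl
  · refine Fin.lastCases ?_ (fun i => ?_) i
    · funext t
      simp [wg, eqB]
    · funext t
      simp [wg, eqB]

theorem LB_scales {κ : Type} (u : κ → ℝ → ℝ) (h0 : ℝ → ℝ) (hLB : LB u h0)
    (hh : ∀ᶠ t in atTop, Real.log t ≤ h0 t)
    (hu : ∀ k, ∃ C : ℝ, 0 ≤ C ∧ ∀ᶠ t in atTop, |u k t| ≤ Real.exp (C * h0 t)) {p : ℕ}
    (g : ℕ → ℝ → ℝ) (s : ℕ → Fin p → ℝ) (N : ℕ)
    (hg : ∀ i < N, Tendsto (g i) atTop atTop) (hgc : ∀ i < N, ∃ t0, ContinuousOn (g i) (Set.Ici t0))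
    (ho : ∀ i < N, h0 =o[atTop] g i) (hgo : ∀ i j, i < j → j < N → g i =o[atTop] g j)
    (hs : ∀ i < N, ∀ k, 0 < s i k)
    (hs' : ∀ i < N, ∀ c : Fin p → ℤ, ∑ k, (c k : ℝ) * s i k = 0 → c = 0) :
    ∀ n, n ≤ N → LB (Sum.elim u (wg g s n)) (Hg h0 g s n) ∧
      (∀ᶠ t in atTop, Real.log t ≤ Hg h0 g s n t) ∧
      (∀ k, ∃ C : ℝ, 0 ≤ C ∧
        ∀ᶠ t in atTop, |Sum.elim u (wg g s n) k t| ≤ Real.exp (C * Hg h0 g s n t)) ∧
      (∀ i < N, n ≤ i → Hg h0 g s n =o[atTop] g i) := by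
  intro n
  induction n with
  | zero =>
    intro _
    have hH0 : Hg h0 g s 0 = h0 := by
      funext t
      simp [Hg]
    rw [hH0]
    refine ⟨?_, hh, ?_, fun i hi _ => ho i hi⟩
    · refine LB_equiv (Equiv.sumEmpty κ (Fin 0 × (Fin p × Fin 4))) u _ ?_ _ hLB
      rintro (x | ⟨i, -⟩)
      · rfl
      · exact i.elim0
    · rintro (x | ⟨i, -⟩)
      · exact hu x
      · exact i.elim0
  | succ n ih =>
    intro hn
    obtain ⟨ih1, ih2, ih3, ih4⟩ := ih (by omega)
    have hgn := hg n (by omega)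
    have hsn := hs n (by omega)
    have hsn' := hs' n (by omega)
    have hHs : ∀ t, Hg h0 g s (n + 1) t = Hg h0 g s n t + ∑ k, s n k * g n t := by
      intro t
      unfold Hg
      rw [Finset.sum_range_succ]
      ring
    have hHs' : Hg h0 g s (n + 1) = fun t => Hg h0 g s n t + ∑ k, s n k * g n t := funext hHs
    have hon : Hg h0 g s n =o[atTop] g n := ih4 n (by omega) le_rfl
    have h1 : ∀ᶠ t in atTop, 1 ≤ Hg h0 g s n t := by
      filter_upwards [ih2, Real.tendsto_log_atTop.eventually_ge_atTop 1] with t h2 h3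
      linarith
    have hgpos : ∀ᶠ t in atTop, 0 < g n t := hgn.eventually_gt_atTop 0
    have hpos : ∀ k, ∀ᶠ t : ℝ in atTop, 0 < s n k * g n t := by
      intro k
      filter_upwards [hgpos] with t ht
      exact mul_pos (hsn k) ht
    have hcont : ∀ k, ∃ t0, ContinuousOn (fun t : ℝ => s n k * g n t) (Set.Ici t0) := by
      intro k
      obtain ⟨t0, ht0⟩ := hgc n (by omega)
      exact ⟨t0, continuousOn_const.mul ht0⟩
    have hH : ∀ c : Fin p → ℤ, c ≠ 0 →
        Tendsto (fun t : ℝ => |∑ k, (c k : ℝ) * (s n k * g n t)| / Hg h0 g s n t) atTop atTop := by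
      intro c hc
      have hne : ∑ k, (c k : ℝ) * s n k ≠ 0 := fun h => hc (hsn' c h)
      have h3 : Tendsto (fun t : ℝ => g n t / Hg h0 g s n t) atTop atTop := by
        have h4 := hon.tendsto_div_nhds_zero
        have h5 : ∀ᶠ t : ℝ in atTop, 0 < Hg h0 g s n t / g n t := by
          filter_upwards [h1, hgpos] with t g1 g2
          exact div_pos (by linarith) g2
        have h6 := (tendsto_nhdsWithin_iff.2 ⟨h4, h5⟩).inv_tendsto_nhdsGT_zero
        refine h6.congr fun t => ?_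
        simp only [Pi.inv_apply, inv_div]
      refine (h3.const_mul_atTop (abs_pos.2 hne)).congr' ?_
      filter_upwards [hgpos] with t ht
      have h4 : ∑ k, (c k : ℝ) * (s n k * g n t) = (∑ k, (c k : ℝ) * s n k) * g n t := by
        rw [Finset.sum_mul]
        refine Finset.sum_congr rfl fun k _ => ?_
        ring
      rw [h4, abs_mul, abs_of_pos ht, mul_div_assoc]
    have hK : ∀ k l, ∀ᶠ t : ℝ in atTop,
        s n l * g n t ≤ ((∑ l, s n l) * ∑ k, 1 / s n k) * (s n k * g n t) := by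
      intro k l
      filter_upwards [hgpos] with t ht
      have h3 : s n l ≤ ∑ l, s n l :=
        Finset.single_le_sum (f := fun l => s n l) (fun l _ => (hsn l).le) (Finset.mem_univ l)
      have h4 : 1 / s n k ≤ ∑ k, 1 / s n k :=
        Finset.single_le_sum (f := fun k => 1 / s n k) (fun k _ => (one_div_pos.2 (hsn k)).le)
          (Finset.mem_univ k)
      have h5 : 1 ≤ (∑ k, 1 / s n k) * s n k := by
        have := mul_le_mul_of_nonneg_right h4 (hsn k).le
        rwa [one_div, inv_mul_cancel₀ (hsn k).ne'] at this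
      have h6 : 0 ≤ ∑ l, s n l := Finset.sum_nonneg fun l _ => (hsn l).le
      have h7 : s n l ≤ (∑ l, s n l) * ((∑ k, 1 / s n k) * s n k) :=
        h3.trans (le_mul_of_one_le_right h6 h5)
      have h8 := mul_le_mul_of_nonneg_right h7 ht.le
      refine h8.trans (le_of_eq ?_)
      ring
    have hnew := LB_block (Sum.elim u (wg g s n)) (Hg h0 g s n) ih1 ih2 ih3
      (fun k t => s n k * g n t) hpos hcont hH _ hK Gq (1 / 2) (by norm_num) Gq_an Gq_ind
    have hsum : ∀ᶠ t : ℝ in atTop, 0 ≤ ∑ k, s n k * g n t := by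
      filter_upwards [hgpos] with t ht
      exact Finset.sum_nonneg fun k _ => (mul_pos (hsn k) ht).le
    refine ⟨?_, ?_, ?_, ?_⟩
    · rw [hHs']
      exact LB_equiv (eqB κ (Fin p × Fin 4) n) _ _ (wg_step u g s n) _ hnew
    · filter_upwards [ih2, hsum] with t h2 h3
      rw [hHs]
      linarith
    · intro k
      rw [wg_step]
      rcases eqB κ (Fin p × Fin 4) n k with q | k'
      · have hft : Tendsto (fun t : ℝ => s n q.1 * g n t) atTop atTop :=
          hgn.const_mul_atTop (hsn q.1)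
        obtain ⟨C, hC, h2⟩ :=
          quot_ub Gq (1 / 2) (by norm_num) Gq_an (fun t : ℝ => s n q.1 * g n t) hft q.2
        refine ⟨C, hC, ?_⟩
        filter_upwards [h2, h1, hgpos] with t h3 h4 h5
        refine h3.trans (Real.exp_le_exp.2 (mul_le_mul_of_nonneg_left ?_ hC))
        rw [hHs]
        have h6 : s n q.1 * g n t ≤ ∑ k, s n k * g n t :=
          Finset.single_le_sum (f := fun k => s n k * g n t)
            (fun k _ => (mul_pos (hsn k) h5).le) (Finset.mem_univ q.1)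
        linarith
      · obtain ⟨C, hC, h2⟩ := ih3 k'
        refine ⟨C, hC, ?_⟩
        filter_upwards [h2, hsum] with t h3 h4
        refine h3.trans (Real.exp_le_exp.2 (mul_le_mul_of_nonneg_left ?_ hC))
        rw [hHs]
        linarith
    · intro i hi hni
      rw [hHs']
      refine IsLittleO.add (ih4 i hi (by omega)) (IsLittleO.fun_sum fun k _ => ?_)
      exact (hgo n i (by omega) hi).const_mul_left _

/-- iterated exponentials -/
noncomputable def ex (i : ℕ) (t : ℝ) : ℝ := Real.exp^[i] t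

theorem ex_zero (t : ℝ) : ex 0 t = t := rfl

theorem ex_succ (i : ℕ) (t : ℝ) : ex (i + 1) t = Real.exp (ex i t) := by
  unfold ex
  rw [Function.iterate_succ', Function.comp_apply]

theorem ex_top (i : ℕ) : Tendsto (ex i) atTop atTop := by
  induction i with
  | zero => exact tendsto_id
  | succ i ih =>
    have h1 : ex (i + 1) = fun t => Real.exp (ex i t) := funext (ex_succ i)
    rw [h1]
    exact Real.tendsto_exp_atTop.comp ih

theorem ex_cont (i : ℕ) : Continuous (ex i) := by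
  induction i with
  | zero => exact continuous_id
  | succ i ih =>
    have h1 : ex (i + 1) = fun t => Real.exp (ex i t) := funext (ex_succ i)
    rw [h1]
    exact Real.continuous_exp.comp ih

theorem ex_an (i : ℕ) (t : ℝ) : AnalyticAt ℝ (ex i) t := by
  induction i with
  | zero => exact analyticAt_id
  | succ i ih =>
    have h1 : ex (i + 1) = fun t => Real.exp (ex i t) := funext (ex_succ i)
    rw [h1]
    exact ih.rexp

theorem ex_pos (i : ℕ) {t : ℝ} (ht : 0 < t) : 0 < ex i t := by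
  cases i with
  | zero => exact ht
  | succ i =>
    rw [ex_succ]
    exact Real.exp_pos _

theorem ex_o_succ (i : ℕ) : ex i =o[atTop] ex (i + 1) := by
  have h1 : (fun y : ℝ => y) =o[atTop] Real.exp := by
    have := Real.isLittleO_pow_exp_atTop (n := 1)
    simpa using this
  have h2 := h1.comp_tendsto (ex_top i)
  have h3 : ex (i + 1) = fun t => Real.exp (ex i t) := funext (ex_succ i)
  rw [h3]
  exact h2

theorem ex_o {i j : ℕ} (h : i < j) : ex i =o[atTop] ex j := by
  induction j with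
  | zero => omega
  | succ j ih =>
    rcases Nat.lt_or_ge i j with h1 | h1
    · exact (ih h1).trans (ex_o_succ j)
    · obtain rfl : i = j := by omega
      exact ex_o_succ i

theorem hb_o' {m : ℕ} (ρ : Fin m → ℝ) (i : ℕ) : hb ρ =o[atTop] ex i := by
  have h1 : hb ρ =o[atTop] ex 0 := by
    have h2 := hb_o ρ 1 one_pos
    refine h2.congr' (EventuallyEq.refl _ _) ?_
    filter_upwards with t
    rw [Real.rpow_one]
    rfl
  cases i with
  | zero => exact h1
  | succ i => exact h1.trans (ex_o (Nat.succ_pos i))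

/-- the real functions of the theorem -/
noncomputable def uT {r m p : ℕ} (σ : Fin r → ℝ) (s : Fin m → Fin p → ℝ) :
    Option (Fin r) ⊕ (Fin m × (Fin p × Fin 4)) → ℝ → ℝ :=
  Sum.elim (ub σ) (fun q t => Gq q.2.2 (xp (s q.1 q.2.1 * ex q.1 t)) / xp (s q.1 q.2.1 * ex q.1 t))

theorem LB_uT {r m p : ℕ} (σ : Fin r → ℝ) (s : Fin m → Fin p → ℝ)
    (hσ : ∀ (c0 : ℤ) (c : Fin r → ℤ), (c0 : ℝ) + ∑ k, (c k : ℝ) * σ k = 0 → c0 = 0 ∧ c = 0)
    (hs : ∀ i k, 0 < s i k) (hs' : ∀ i, ∀ c : Fin p → ℤ, ∑ k, (c k : ℝ) * s i k = 0 → c = 0) :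
    ∃ h : ℝ → ℝ, LB (uT σ s) h := by
  have hmain := LB_scales (ub σ) (hb σ) (LB_ub σ hσ) (Eventually.of_forall (hb_ge σ)) (ub_ub σ)
    ex (fun i => if h : i < m then s ⟨i, h⟩ else fun _ => 0) m
    (fun i _ => ex_top i) (fun i _ => ⟨0, (ex_cont i).continuousOn⟩) (fun i _ => hb_o' σ i)
    (fun i j hij _ => ex_o hij)
    (fun i hi k => by simpa [hi] using hs ⟨i, hi⟩ k)
    (fun i hi c hc => by
      refine hs' ⟨i, hi⟩ c ?_
      simpa [hi] using hc) m le_rfl
  refine ⟨_, LB_equiv (Equiv.refl _) _ _ ?_ _ hmain.1⟩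
  rintro (x | ⟨i, k, l⟩)
  · rfl
  · funext t
    simp [uT, wg]

theorem uT_an {r m p : ℕ} (σ : Fin r → ℝ) (s : Fin m → Fin p → ℝ) (a0 : ℝ) (ha0 : 0 < a0)
    (hs : ∀ i k, 0 < s i k)
    (q : Option (Fin r) ⊕ (Fin m × (Fin p × Fin 4))) : AnalyticOnNhd ℝ (uT σ s q) (Ici a0) := by
  intro t ht
  have ht0 : 0 < t := ha0.trans_le ht
  have hpow : ∀ r : ℝ, AnalyticAt ℝ (fun t : ℝ => t ^ r) t := by
    intro r
    have h1 : (fun t : ℝ => Real.exp (Real.log t * r)) =ᶠ[𝓝 t] fun t => t ^ r := by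
      filter_upwards [lt_mem_nhds ht0] with y hy
      rw [Real.rpow_def_of_pos hy]
    exact (((analyticAt_log ht0).mul analyticAt_const).rexp).congr h1
  rcases q with (_ | i) | ⟨i, k, l⟩
  · exact analyticAt_log ht0
  · exact hpow (σ i)
  · have hpos : 0 < s i k * ex i t := mul_pos (hs i k) (ex_pos i ht0)
    have h1 : AnalyticAt ℝ (fun y => Gq l (xx y) / xx y) (s i k * ex i t) :=
      comp_an (Gq l) (Gq_an' l) _ hpos
    have h2 : AnalyticAt ℝ (fun t : ℝ => s i k * ex i t) t := analyticAt_const.mul (ex_an i t)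
    exact AnalyticAt.comp (g := fun y => Gq l (xx y) / xx y) (f := fun t : ℝ => s i k * ex i t)
      (x := t) h1 h2

end Pool.Agent.Y216.TW
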