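import Pool.Agent.Y216.TW.Lad
import Pool.Agent.Y771.KF.MSR

/-!
Jets of `j` at points `i s exp (exp (⋯ (x)))`, `x` in a real number field: the covering theorem.
-/

set_option autoImplicit false

open Filter Topology Height Height.AdmissibleAbsValues MvPolynomial Pool.Agent.Y124 Pool.Agent.TH21.MS

namespace Pool.Agent.Y216.TW

open Pool.Agent.Y771.KF

variable {k : Type} [Field k] [NumberField k]

/-- the numbers of the theorem -/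
noncomputable def numT {r m p n : ℕ} (τ : k →+* ℝ) (σ : Fin r → ℝ) (s : Fin m → Fin p → ℝ)
    (x : Fin n → k) : Option (Fin n × (Option (Fin r) ⊕ (Fin m × (Fin p × Fin 4)))) → ℂ
  | none => (Real.pi : ℂ)
  | some (l, Sum.inl none) => (Real.log (τ (x l)) : ℂ)
  | some (l, Sum.inl (some i)) => (((τ (x l) : ℝ) ^ σ i : ℝ) : ℂ)
  | some (l, Sum.inr (i, j, q)) => jet4 (Complex.I * ((s i j * ex i (τ (x l)) : ℝ) : ℂ)) q

theorem numT_eq {r m p n : ℕ} (τ : k →+* ℝ) (σ : Fin r → ℝ) (s : Fin m → Fin p → ℝ)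
    (hs : ∀ i j, 0 < s i j) (x : Fin n → k) (hx : ∀ l, (0 : ℝ) < τ (x l)) :
    numT τ σ s x = numIK τ (uT σ s) sL x := by
  funext i
  rcases i with _ | ⟨l, (_ | i) | ⟨i, k, q⟩⟩
  · rfl
  · simp [numT, numIK, uT, ub, sL]
  · simp [numT, numIK, uT, ub, sL]
  · exact jet4_I (s i k * ex i (τ (x l))) (mul_pos (hs i k) (ex_pos i (hx l))) q

/-- the exceptional tuples -/
def ExcT {r m p : ℕ} (τ : k →+* ℝ) (n d : ℕ) (σ : Fin r → ℝ) (s : Fin m → Fin p → ℝ)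
    (a b A B T : ℝ) : Set (Fin n → k) :=
  {x | (∀ l, τ (x l) ∈ Set.Icc a b ∧ mulHeight₁ (x l) ≤ T) ∧
    ∃ P : MvPolynomial (Option (Fin n × (Option (Fin r) ⊕ (Fin m × (Fin p × Fin 4))))) k, P ≠ 0 ∧
      (∀ i, P.degreeOf i ≤ d) ∧ (∀ e, mulHeight₁ (P.coeff e) ≤ T ^ A) ∧
      ‖eval₂ (Complex.ofRealHom.comp τ) (numT τ σ s x) P‖ ≤ T ^ (-B)}

theorem towermainK {r m p : ℕ} (τ : k →+* ℝ) (σ : Fin r → ℝ) (s : Fin m → Fin p → ℝ)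
    (hσ : ∀ (c0 : ℤ) (c : Fin r → ℤ), (c0 : ℝ) + ∑ k, (c k : ℝ) * σ k = 0 → c0 = 0 ∧ c = 0)
    (hs : ∀ i k, 0 < s i k) (hs' : ∀ i, ∀ c : Fin p → ℤ, ∑ k, (c k : ℝ) * s i k = 0 → c = 0)
    (n d : ℕ) (hn : 1 ≤ n) (A a b : ℝ) (ha : 0 < a) (hab : a < b) (ε : ℝ) (hε : 0 < ε) :
    ∃ (D : ℕ) (B C : ℝ), ∀ T : ℝ, 1 ≤ T →
      (∃ Φ : Finset (MvPolynomial (Fin n) k), (Φ.card : ℝ) ≤ C * T ^ ε ∧
        (∀ Q ∈ Φ, Q ≠ 0 ∧ Q.totalDegree ≤ D) ∧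
        ∀ t ∈ ExcT τ n d σ s a b A B T, ∃ Q ∈ Φ, eval t Q = 0) ∧
      (ExcT τ n d σ s a b A B T).Finite ∧
      ((ExcT τ n d σ s a b A B T).ncard : ℝ) ≤
        C * T ^ ε * ({x : k | mulHeight₁ x ≤ T}.ncard : ℝ) ^ (n - 1) := by
  obtain ⟨h, hLB⟩ := LB_uT σ s hσ hs hs'
  obtain ⟨D, B, C, hBC⟩ :=
    count2K τ (uT σ s) sL h a (uT_an σ s a ha hs) hLB n d hn A a b le_rfl hab ε hε
  refine ⟨D, B, C, fun T hT => ?_⟩
  have hset : ExcT τ n d σ s a b A B T = ExcIK τ n d (uT σ s) sL a b A B T := by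
    ext x
    simp only [ExcT, ExcIK, Set.mem_ofPred_eq]
    refine and_congr_right fun hx => ?_
    rw [numT_eq τ σ s hs x fun l => ha.trans_le (hx l).1.1]
  rw [hset]
  exact hBC T hT

end Pool.Agent.Y216.TW
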